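import Mathlib
import Pool.Agent.W218.MU.Dil

/-!
Prime tuplets `q r_1 + 1, ..., q r_l + 1` with `r_j ≤ (log x) ^ C`: for every set `A` of values of the `r_j` with
`∑ r / φ(r) ≥ lam * log x`, `lam > l - 1`, the sum over the `l`-element subsets of `A` of the number of `q ∈ [x, 2x)` with
all `q r_j + 1` prime is at least `θ` times the sum of the conjectured main terms, `θ < ∏ (1 - i / lam)`. The same for
arbitrary sets of primitive linear forms `a n + h`.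
-/

namespace Pool.Agent.Results.MP_d018b2_nt.SharpAverage
open Finset

/-- the number of residue classes `q mod p` with `p ∣ ∏ (q r + 1)` -/
def w (T : Finset ℕ) (p : ℕ) : ℕ := ((range p).filter (fun q => p ∣ ∏ r ∈ T, (q * r + 1))).card

/-- the singular product of the forms `q r + 1`, `r ∈ T` -/
noncomputable def S (T : Finset ℕ) : ℝ :=
  ∏' p : Nat.Primes, (1 - (w T p : ℝ) / ((p : ℕ) : ℝ)) / (1 - 1 / ((p : ℕ) : ℝ)) ^ T.card

/-- the number of `x ≤ q < 2x` with all `q r + 1`, `r ∈ T`, prime -/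
def N (x : ℕ) (T : Finset ℕ) : ℕ := ((Ico x (2 * x)).filter (fun q => ∀ r ∈ T, (q * r + 1).Prime)).card

/-- the number of classes `n mod p` with `p ∣ a n + h` for some form `(a, h)` of `T` -/
def wL (T : Finset (ℕ × ℕ)) (p : ℕ) : ℕ := ((range p).filter (fun n => ∃ L ∈ T, p ∣ L.1 * n + L.2)).card

/-- the singular product of the forms `a n + h`, `(a, h) ∈ T` -/
noncomputable def SL (T : Finset (ℕ × ℕ)) : ℝ :=
  ∏' p : Nat.Primes, (1 - (wL T p : ℝ) / ((p : ℕ) : ℝ)) / (1 - 1 / ((p : ℕ) : ℝ)) ^ T.card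

/-- the number of `x ≤ n < 2x` with all `a n + h`, `(a, h) ∈ T`, prime -/
def NL (x : ℕ) (T : Finset (ℕ × ℕ)) : ℕ := ((Ico x (2 * x)).filter (fun n => ∀ L ∈ T, (L.1 * n + L.2).Prime)).card

theorem result (k : ℕ) :
    (∀ T : Finset ℕ, (∀ r ∈ T, 1 ≤ r) → HasProd (fun p : Nat.Primes =>
      (1 - (w T p : ℝ) / ((p : ℕ) : ℝ)) / (1 - 1 / ((p : ℕ) : ℝ)) ^ T.card) (S T)) ∧
    (∃ κ : ℝ, 0 < κ ∧ ∀ lam θ C : ℝ, (k : ℝ) < lam → 0 ≤ C →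
      θ < ∏ i ∈ range k, (1 - (i + 1 : ℝ) / lam) →
      ∃ x₀ : ℕ, ∀ x : ℕ, x₀ ≤ x → ∀ A : Finset ℕ, (∀ r ∈ A, 1 ≤ r ∧ (r : ℝ) ≤ Real.log x ^ C) →
        (lam * Real.log x ≤ ∑ r ∈ A, (r : ℝ) / Nat.totient r →
          θ * (x / Real.log x ^ (k + 1)) * ∑ T ∈ A.powersetCard (k + 1), S T ≤
            ∑ T ∈ A.powersetCard (k + 1), (N x T : ℝ)) ∧
        (lam * Real.log x ≤ A.card → κ * (A.card : ℝ) ^ (k + 1) ≤ ∑ T ∈ A.powersetCard (k + 1), S T)) ∧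
    (∀ lam θ C : ℝ, (k : ℝ) < lam → 0 ≤ C → θ < ∏ i ∈ range k, (1 - (i + 1 : ℝ) / lam) →
      ∃ x₀ : ℕ, ∀ x : ℕ, x₀ ≤ x → ∀ A : Finset (ℕ × ℕ), (∀ L ∈ A, 1 ≤ L.1 ∧ Nat.Coprime L.1 L.2) →
        (∀ L ∈ A, (L.1 : ℝ) ≤ Real.log x ^ C ∧ (L.2 : ℝ) ≤ Real.log x ^ C) →
        lam * Real.log x ≤ ∑ L ∈ A, (L.1 : ℝ) / Nat.totient L.1 →
        θ * (x / Real.log x ^ (k + 1)) * ∑ T ∈ A.powersetCard (k + 1), SL T ≤
          ∑ T ∈ A.powersetCard (k + 1), (NL x T : ℝ)) :=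
  ⟨fun _ hT => Pool.Agent.W218.MU.SD_hasProd hT, Pool.Agent.W218.MU.dilMain k,
    fun lam θ C h1 h2 h3 => Pool.Agent.W218.MU.universalL k lam θ C h1 h2 h3⟩

end Pool.Agent.Results.MP_d018b2_nt.SharpAverage
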